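import Pool.Agent.H30.VR.Targets

/-!
# Sets of pairs of positions without decreasing pairs (row ORD of ver_modules)
-/

set_option autoImplicit false

namespace Pool.Agent.H67.VR

open Pool.Agent.H30.VR Finset

/-- a chain in the product order -/
theorem chain_card (E : Finset (ℕ × ℕ)) (X Y : Finset ℕ) (hE : ∀ p ∈ E, p.1 ∈ X ∧ p.2 ∈ Y)
    (hc : ∀ p ∈ E, ∀ p' ∈ E, p.1 < p'.1 → p.2 ≤ p'.2) : E.card ≤ X.card + Y.card := by
  have hmono : ∀ (Z : Finset ℕ) (a b : ℕ), a ≤ b →
      (Z.filter (fun x => x < a)).card ≤ (Z.filter (fun x => x < b)).card := by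
    intro Z a b hab
    refine Finset.card_le_card fun x hx => ?_
    rw [Finset.mem_filter] at hx ⊢
    exact ⟨hx.1, lt_of_lt_of_le hx.2 hab⟩
  have hstrict : ∀ (Z : Finset ℕ) (a b : ℕ), a ∈ Z → a < b →
      (Z.filter (fun x => x < a)).card < (Z.filter (fun x => x < b)).card := by
    intro Z a b ha hab
    refine Finset.card_lt_card ⟨fun x hx => ?_, fun h => ?_⟩
    · rw [Finset.mem_filter] at hx ⊢
      exact ⟨hx.1, lt_trans hx.2 hab⟩
    · have h1 := h (Finset.mem_filter.2 ⟨ha, hab⟩)
      rw [Finset.mem_filter] at h1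
      exact lt_irrefl _ h1.2
  have hlt : ∀ (Z : Finset ℕ) (a : ℕ), a ∈ Z → (Z.filter (fun x => x < a)).card < Z.card := by
    intro Z a ha
    refine Finset.card_lt_card ⟨Finset.filter_subset _ _, fun h => ?_⟩
    have h1 := h ha
    rw [Finset.mem_filter] at h1
    exact lt_irrefl _ h1.2
  have h := Finset.card_le_card_of_injOn (s := E) (t := Finset.range (X.card + Y.card))
    (fun p => (X.filter (fun x => x < p.1)).card + (Y.filter (fun y => y < p.2)).card)
    (fun p hp => by
      have h1 := hE p hp
      have h2 := hlt X p.1 h1.1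
      have h3 := hlt Y p.2 h1.2
      simp only [Finset.coe_range, Set.mem_Iio]
      omega)
    (fun p hp q hq hpq => by
      simp only at hpq
      have hp' := hE p hp
      have hq' := hE q hq
      rcases lt_trichotomy p.1 q.1 with h1 | h1 | h1
      · have h2 := hc p hp q hq h1
        have h3 := hstrict X p.1 q.1 hp'.1 h1
        have h4 := hmono Y p.2 q.2 h2
        omega
      · rcases lt_trichotomy p.2 q.2 with h2 | h2 | h2
        · have h4 := hstrict Y p.2 q.2 hp'.2 h2
          rw [h1] at hpq
          omega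
        · exact Prod.ext h1 h2
        · have h4 := hstrict Y q.2 p.2 hq'.2 h2
          rw [h1] at hpq
          omega
      · have h2 := hc q hq p hp h1
        have h3 := hstrict X q.1 p.1 hq'.1 h1
        have h4 := hmono Y q.2 p.2 h2
        omega)
  rwa [Finset.card_range] at h

theorem pf_ORD : T_ORD := by
  intro E X Y hE hd
  have key : ∀ r : ℕ, (E.filter (fun p => p.1 % 2 = r)).card ≤
      (X.filter (fun x => x % 2 = r)).card + Y.card := by
    intro r
    refine chain_card _ _ _ ?_ ?_
    · intro p hp
      rw [Finset.mem_filter] at hp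
      have h1 := hE p hp.1
      exact ⟨Finset.mem_filter.2 ⟨h1.1, hp.2⟩, h1.2⟩
    · intro p hp p' hp' hlt
      rw [Finset.mem_filter] at hp hp'
      by_contra h
      have h1 := hd p hp.1 p' hp'.1 hlt (not_le.1 h)
      have h2 := hp.2
      have h3 := hp'.2
      omega
  have hsplit : ∀ (α : Type) (Z : Finset α) (f : α → ℕ), Z.card =
      (Z.filter (fun x => f x % 2 = 0)).card + (Z.filter (fun x => f x % 2 = 1)).card := by
    intro α Z f
    rw [← Finset.card_filter_add_card_filter_not (s := Z) (fun x => f x % 2 = 0)]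
    congr 2
    refine Finset.filter_congr fun x _ => ?_
    omega
  have h0 := key 0
  have h1 := key 1
  have h2 := hsplit _ E (fun p => p.1)
  have h3 := hsplit _ X (fun x => x)
  omega

end Pool.Agent.H67.VR
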