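import Mathlib
import Pool.Agent.H67.VR.Data

/-!
The common neighbours of the 26 cyclic shifts.
-/

set_option autoImplicit false

namespace Pool.Agent.H67.VR

/-- the word of length `26`; all off-peak autocorrelations are `2` or `-2` -/
def rb (j c : ℕ) : Bool := Nat.testBit 748263 ((c + j) % 26)

/-- sums by recursion -/
def sumTo (f : ℕ → ℕ) : ℕ → ℕ
  | 0 => 0
  | n + 1 => sumTo f n + f n

theorem sumTo_eq (f : ℕ → ℕ) (n : ℕ) : sumTo f n = ∑ c ∈ Finset.range n, f c := by
  induction n with
  | zero => rfl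
  | succ n ih => rw [sumTo, ih, Finset.sum_range_succ]

/-- number of differing coordinates -/
def dst (f g : ℕ → Bool) : ℕ := sumTo (fun c => cond (f c ^^ g c) 1 0) 26

/-- both rows differ from `b` -/
def ind (c : ℕ) (b : Bool) (k : ℕ) : ℕ := cond ((rb (k / 26) c ^^ b) && (rb (k % 26) c ^^ b)) 1 0

def G0 (k : ℕ) : ℕ := 15 - (28 - dst (rb (k / 26)) (rb (k % 26))) / 2

theorem DLc_eq : DLc = (List.range' 0 26).map
    fun c => (enc (ind c false) 676, enc (ind c true) 676) := by decide +kernel

theorem P0c_eq : P0c = enc (fun k => G0 k) 676 := by decide +kernel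

theorem HIc_eq : HIc = hi 676 := by decide +kernel

theorem search : dfs HIc leafOK DLc P0c 0 = true := by decide +kernel

theorem cnt_bound (v : ℕ → Bool) (hv : ∀ j < 26, dst v (rb j) ≤ 14) (k : ℕ) (hk : k < 676) :
    G0 k + cnt ind v 26 k ≤ 15 := by
  have h1 := hv (k / 26) (by omega)
  have h2 := hv (k % 26) (by omega)
  have key : ∀ n, 2 * cnt ind v n k +
      sumTo (fun c => cond (rb (k / 26) c ^^ rb (k % 26) c) 1 0) n
      = sumTo (fun c => cond (v c ^^ rb (k / 26) c) 1 0) n
        + sumTo (fun c => cond (v c ^^ rb (k % 26) c) 1 0) n := by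
    intro n
    induction n with
    | zero => rfl
    | succ n ih =>
      have e : 2 * ind n (v n) k + cond (rb (k / 26) n ^^ rb (k % 26) n) 1 0
          = cond (v n ^^ rb (k / 26) n) 1 0 + cond (v n ^^ rb (k % 26) n) 1 0 := by
        unfold ind
        cases v n <;> cases rb (k / 26) n <;> cases rb (k % 26) n <;> rfl
      simp only [cnt, sumTo]
      omega
  have h3 := key 26
  unfold G0
  change 2 * cnt ind v 26 k + dst (rb (k / 26)) (rb (k % 26)) = dst v (rb (k / 26))
    + dst v (rb (k % 26)) at h3
  omega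

theorem code_testBit (v : ℕ → Bool) (n c : ℕ) (hc : c < n) :
    Nat.testBit (code v n) (n - 1 - c) = v c := by
  induction n with
  | zero => omega
  | succ n ih =>
    rw [code]
    by_cases h : c = n
    · subst h
      have : c + 1 - 1 - c = 0 := by omega
      rw [this, Nat.testBit_zero]
      cases v c <;> simp
    · have h1 : n + 1 - 1 - c = (n - 1 - c) + 1 := by omega
      rw [h1, Nat.testBit_succ]
      have h2 : (2 * code v n + if v n = true then 1 else 0) / 2 = code v n := by
        split <;> omega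
      rw [h2]
      exact ih (by omega)

/-- decoding of the leaves -/
def dec (L c : ℕ) : Bool := Nat.testBit L (25 - c)

theorem leaf_meaning : ∀ L ∈ leafL, (∃ j < 26, dst (dec L) (rb j) = 0) ∨
    dst (dec L) (fun _ => true) ≤ 1 ∨ dst (dec L) (fun _ => false) ≤ 1 := by
  decide +kernel

theorem dst_congr {f f' g : ℕ → Bool} (h : ∀ c < 26, f c = f' c) : dst f g = dst f' g := by
  unfold dst
  rw [sumTo_eq, sumTo_eq]
  refine Finset.sum_congr rfl fun c hc => ?_
  rw [h c (Finset.mem_range.1 hc)]

theorem dst_zero {f g : ℕ → Bool} (h : dst f g = 0) : ∀ c < 26, f c = g c := by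
  intro c hc
  unfold dst at h
  rw [sumTo_eq, Finset.sum_eq_zero_iff] at h
  have := h c (Finset.mem_range.2 hc)
  revert this
  cases f c <;> cases g c <;> simp

/-- the common neighbours in dimension 26 -/
theorem common (v : ℕ → Bool) (hv : ∀ j < 26, dst v (rb j) ≤ 14) :
    (∃ j < 26, ∀ c < 26, v c = rb j c) ∨ dst v (fun _ => true) ≤ 1 ∨
      dst v (fun _ => false) ≤ 1 := by
  have h0 := dfs_sound leafOK ind G0 676 26 v (fun k hk => cnt_bound v hv k hk) 26 0 rfl (by
    have h1 := search
    rw [HIc_eq, DLc_eq, P0c_eq] at h1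
    exact h1)
  unfold leafOK at h0
  rw [List.any_eq_true] at h0
  obtain ⟨L, hL, he⟩ := h0
  have he' : code v 26 = L := Nat.eq_of_beq_eq_true he
  have hdec : ∀ c < 26, v c = dec L c := by
    intro c hc
    rw [← code_testBit v 26 c hc, he']
    rfl
  rcases leaf_meaning L hL with ⟨j, hj, h⟩ | h | h
  · left
    refine ⟨j, hj, fun c hc => ?_⟩
    rw [hdec c hc, dst_zero h c hc]
  · right; left
    rw [dst_congr hdec]; exact h
  · right; right
    rw [dst_congr hdec]; exact h

end Pool.Agent.H67.VR
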