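import Mathlib

/-! A Hadamard matrix of order 28. -/

set_option autoImplicit false

namespace Pool.Agent.H67.VR
def hadRows : List ℕ := [268419071, 185429047, 102422639, 204828893, 141222331, 14009207, 28002029, 55987673, 111958961, 223901537, 179367619, 90299783, 180583181, 92730907, 16382, 82979893, 165943403, 63484117, 126951851, 253887319, 239371949, 210341209, 152279729, 36156769, 72297155, 144577927, 20753165, 41489947]
def hadM : Matrix (Fin (2 * 14)) (Fin (2 * 14)) ℤ := fun i j =>
  if Nat.testBit (hadRows.getD (i : ℕ) 0) (j : ℕ) then 1 else -1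
theorem had_dot : ∀ i j : Fin (2 * 14), ∑ k, hadM i k * hadM j k = if i = j then 28 else 0 := by
  decide +kernel
theorem had_ok : (∀ i j, hadM i j = 1 ∨ hadM i j = -1) ∧
    hadM * hadM.transpose = (2 * ((14 : ℕ) : ℤ)) • (1 : Matrix (Fin (2 * 14)) (Fin (2 * 14)) ℤ) := by
  constructor
  · intro i j
    unfold hadM
    split
    · exact Or.inl rfl
    · exact Or.inr rfl
  · ext i j
    rw [Matrix.mul_apply, Matrix.smul_apply, Matrix.one_apply]
    simp only [Matrix.transpose_apply]
    rw [had_dot]
    split <;> norm_num
end Pool.Agent.H67.VR
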