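import Mathlib
import Pool.Agent.H58.Kuhn

/-!
If the `m`-th homotopy group vanishes then every map of the `m`-sphere extends to the ball.
We use the ball `‖w‖ + |b| ≤ 1` in `(Fin m → ℝ) × ℝ`.
-/

set_option autoImplicit false

open scoped unitInterval Topology
open Set

namespace Pool.Agent.H67.VR

variable {m : ℕ}

/-- the cube `[0,1]^m` rescaled to `[-1,1]^m` -/
noncomputable def ctr (u : Fin m → I) : Fin m → ℝ := fun i => 2 * (u i : ℝ) - 1

theorem ctr_cont : Continuous (ctr (m := m)) := by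
  unfold ctr
  fun_prop

theorem abs_ctr_le (u : Fin m → I) (i : Fin m) : |ctr u i| ≤ 1 := by
  have h0 := (u i).2.1
  have h1 := (u i).2.2
  unfold ctr
  rw [abs_le]
  constructor <;> linarith

theorem norm_ctr_le (u : Fin m → I) : ‖ctr u‖ ≤ 1 := by
  rw [pi_norm_le_iff_of_nonneg zero_le_one]
  intro i
  exact abs_ctr_le u i

theorem norm_ctr_eq (u : Fin m → I) : ‖ctr u‖ = 1 ↔ u ∈ Cube.boundary (Fin m) := by
  constructor
  · intro h
    by_contra hb
    have hlt : ‖ctr u‖ < 1 := by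
      rw [pi_norm_lt_iff zero_lt_one]
      intro i
      rw [Real.norm_eq_abs, abs_lt]
      have h0 : u i ≠ 0 := fun h => hb ⟨i, Or.inl h⟩
      have h1 : u i ≠ 1 := fun h => hb ⟨i, Or.inr h⟩
      have h0' : (0 : ℝ) < u i := unitInterval.pos_iff_ne_zero.2 h0
      have h1' : (u i : ℝ) < 1 := unitInterval.lt_one_iff_ne_one.2 h1
      unfold ctr
      constructor <;> linarith
    linarith
  · rintro ⟨i, hi⟩
    refine le_antisymm (norm_ctr_le u) ?_
    have h2 : |ctr u i| = 1 := by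
      unfold ctr
      rcases hi with hi | hi <;> rw [hi] <;> norm_num
    have := norm_le_pi_norm (ctr u) i
    rw [Real.norm_eq_abs, h2] at this
    exact this

/-- the scale factor -/
noncomputable def sc (ρ : ℝ) : ℝ := 2 * (1 - ρ) / max ρ (1 - ρ)

theorem max_pos' (ρ : ℝ) : 0 < max ρ (1 - ρ) := by
  rcases le_total ρ (1 - ρ) with h | h
  · rw [max_eq_right h]; linarith
  · rw [max_eq_left h]; linarith

theorem sc_cont : Continuous sc := by
  unfold sc
  exact (by fun_prop : Continuous fun ρ : ℝ => 2 * (1 - ρ)).div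
    (by fun_prop) fun ρ => (max_pos' ρ).ne'

theorem sc_mul (ρ : ℝ) (h0 : 0 ≤ ρ) (h1 : ρ ≤ 1) : sc ρ * ρ = 1 - |1 - 2 * ρ| := by
  unfold sc
  rcases le_total ρ (1 - ρ) with h | h
  · rw [max_eq_right h, abs_of_nonneg (by linarith), mul_div_assoc, div_self (by linarith)]
    ring
  · have hρ : ρ ≠ 0 := by intro h2; subst h2; linarith
    rw [max_eq_left h, abs_of_nonpos (by linarith)]
    field_simp
    ring

/-- the map from the cube to the sphere -/
noncomputable def q (u : Fin m → I) : (Fin m → ℝ) × ℝ :=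
  (sc ‖ctr u‖ • ctr u, 1 - 2 * ‖ctr u‖)

theorem q_cont : Continuous (q (m := m)) := by
  unfold q
  have h := ctr_cont (m := m)
  exact ((sc_cont.comp h.norm).smul h).prodMk (by fun_prop)

/-- the norm of the ball -/
noncomputable def N (p : (Fin m → ℝ) × ℝ) : ℝ := ‖p.1‖ + |p.2|

theorem N_cont : Continuous (N (m := m)) := by
  unfold N; fun_prop

theorem N_nonneg (p : (Fin m → ℝ) × ℝ) : 0 ≤ N p := by
  unfold N; positivity

theorem sc_nonneg (ρ : ℝ) (h1 : ρ ≤ 1) : 0 ≤ sc ρ := by
  unfold sc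
  have := max_pos' ρ
  exact div_nonneg (by linarith) this.le

theorem N_q (u : Fin m → I) : N (q u) = 1 := by
  unfold N q
  have h1 := norm_ctr_le u
  have h0 := norm_nonneg (ctr u)
  simp only
  rw [norm_smul, Real.norm_eq_abs, abs_of_nonneg (sc_nonneg _ h1), sc_mul _ h0 h1]
  ring

theorem N_smul (c : ℝ) (hc : 0 ≤ c) (p : (Fin m → ℝ) × ℝ) : N (c • p) = c * N p := by
  unfold N
  rw [Prod.smul_fst, Prod.smul_snd, norm_smul, Real.norm_eq_abs, abs_of_nonneg hc, smul_eq_mul,
    abs_mul, abs_of_nonneg hc]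
  ring

theorem N_eq_zero {p : (Fin m → ℝ) × ℝ} (h : N p = 0) : p = 0 := by
  unfold N at h
  have h1 := norm_nonneg p.1
  have h2 := abs_nonneg p.2
  have h3 : ‖p.1‖ = 0 := by linarith
  have h4 : |p.2| = 0 := by linarith
  exact Prod.ext (norm_eq_zero.1 h3) (abs_eq_zero.1 h4)

/-- surjectivity of `q` onto the sphere -/
theorem q_surj (hm : 0 < m) (p : (Fin m → ℝ) × ℝ) (hp : N p = 1) : ∃ u : Fin m → I, q u = p := by
  obtain ⟨w, b⟩ := p
  unfold N at hp
  simp only at hp
  have hb : |b| ≤ 1 := by have := norm_nonneg w; linarith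
  have hb' := abs_le.1 hb
  -- the candidate vector in [-1,1]^m
  suffices hs : ∃ v : Fin m → ℝ, ‖v‖ ≤ 1 ∧ sc ‖v‖ • v = w ∧ 1 - 2 * ‖v‖ = b by
    obtain ⟨v, hv1, hv2, hv3⟩ := hs
    have hvi : ∀ i, |v i| ≤ 1 := fun i => (norm_le_pi_norm v i).trans hv1
    refine ⟨fun i => ⟨(v i + 1) / 2, ?_, ?_⟩, ?_⟩
    · have := (abs_le.1 (hvi i)).1; linarith
    · have := (abs_le.1 (hvi i)).2; linarith
    · have hc : ctr (fun i => (⟨(v i + 1) / 2, by have := (abs_le.1 (hvi i)).1; linarith,
          by have := (abs_le.1 (hvi i)).2; linarith⟩ : I)) = v := by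
        funext i
        unfold ctr
        simp only
        ring
      unfold q
      rw [hc]
      exact Prod.ext hv2 hv3
  by_cases hb1 : b = -1
  · subst hb1
    have hw : w = 0 := by
      rw [← norm_eq_zero]
      have : |(-1 : ℝ)| = 1 := by norm_num
      linarith
    refine ⟨fun _ => 1, ?_, ?_, ?_⟩
    · rw [pi_norm_le_iff_of_nonneg zero_le_one]; intro i; simp
    · have : ‖(fun _ => 1 : Fin m → ℝ)‖ = 1 := by
        have : Nonempty (Fin m) := ⟨⟨0, hm⟩⟩
        rw [pi_norm_const]; simp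
      rw [this, hw]
      unfold sc
      simp
    · have : ‖(fun _ => 1 : Fin m → ℝ)‖ = 1 := by
        have : Nonempty (Fin m) := ⟨⟨0, hm⟩⟩
        rw [pi_norm_const]; simp
      rw [this]; norm_num
  · have hb2 : -1 < b := lt_of_le_of_ne hb'.1 (Ne.symm hb1)
    set ρ : ℝ := (1 - b) / 2 with hρ
    have hρ0 : 0 ≤ ρ := by rw [hρ]; linarith
    have hρ1 : ρ < 1 := by rw [hρ]; linarith
    have hρb : 1 - 2 * ρ = b := by rw [hρ]; ring
    have hmx := max_pos' ρ
    have hsp : 0 < sc ρ := by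
      unfold sc
      exact div_pos (by linarith) hmx
    have hnw : ‖w‖ = sc ρ * ρ := by
      rw [sc_mul ρ hρ0 hρ1.le, hρb]; linarith
    have hnv : ‖(sc ρ)⁻¹ • w‖ = ρ := by
      rw [norm_smul, Real.norm_eq_abs, abs_of_pos (inv_pos.2 hsp), hnw]
      field_simp
    refine ⟨(sc ρ)⁻¹ • w, ?_, ?_, ?_⟩
    · rw [hnv]; exact hρ1.le
    · rw [hnv, smul_smul, mul_inv_cancel₀ hsp.ne', one_smul]
    · rw [hnv]; exact hρb

theorem q_inj {u u' : Fin m → I} (h : q u = q u') :
    u = u' ∨ (u ∈ Cube.boundary (Fin m) ∧ u' ∈ Cube.boundary (Fin m)) := by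
  unfold q at h
  have h1 := congrArg Prod.fst h
  have h2 := congrArg Prod.snd h
  simp only at h1 h2
  have hρ : ‖ctr u‖ = ‖ctr u'‖ := by linarith
  by_cases hb : ‖ctr u‖ = 1
  · right
    exact ⟨(norm_ctr_eq u).1 hb, (norm_ctr_eq u').1 (hρ ▸ hb)⟩
  · left
    have hlt : ‖ctr u‖ < 1 := lt_of_le_of_ne (norm_ctr_le u) hb
    rw [← hρ] at h1
    have hsp : 0 < sc ‖ctr u‖ := by
      unfold sc
      exact div_pos (by linarith) (max_pos' _)
    have h3 : ctr u = ctr u' := by
      have := congrArg (fun z => (sc ‖ctr u‖)⁻¹ • z) h1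
      simpa only [smul_smul, inv_mul_cancel₀ hsp.ne', one_smul] using this
    funext i
    have h4 := congrFun h3 i
    unfold ctr at h4
    exact Subtype.ext (by linarith)

theorem q_boundary {u : Fin m → I} (hu : u ∈ Cube.boundary (Fin m)) :
    q u = ((0 : Fin m → ℝ), (-1 : ℝ)) := by
  have h := (norm_ctr_eq u).2 hu
  unfold q
  rw [h]
  unfold sc
  norm_num

/-- the closed ball -/
def Ball (m : ℕ) : Type := {p : (Fin m → ℝ) × ℝ // N p ≤ 1}

instance : TopologicalSpace (Ball m) := by unfold Ball; infer_instance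
instance : T2Space (Ball m) := by unfold Ball; infer_instance

/-- the map from the cube of one dimension more to the ball -/
noncomputable def Th (x : I × (Fin m → I)) : Ball m :=
  ⟨(1 - (x.1 : ℝ)) • q x.2, by
    rw [N_smul _ (by have := x.1.2.2; linarith), N_q]
    have := x.1.2.1
    linarith⟩

theorem Th_cont : Continuous (Th (m := m)) := by
  unfold Th
  refine Continuous.subtype_mk ?_ _
  exact (by fun_prop : Continuous fun x : I × (Fin m → I) => 1 - (x.1 : ℝ)).smul
    (q_cont.comp continuous_snd)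

theorem Th_surj (hm : 0 < m) : Function.Surjective (Th (m := m)) := by
  rintro ⟨p, hp⟩
  have h0 := N_nonneg p
  by_cases hz : N p = 0
  · have := N_eq_zero hz
    refine ⟨(1, fun _ => 0), Subtype.ext ?_⟩
    simp [Th, this]
  · have hpos : 0 < N p := lt_of_le_of_ne h0 (Ne.symm hz)
    obtain ⟨u, hu⟩ := q_surj hm ((N p)⁻¹ • p) (by
      rw [N_smul _ (inv_nonneg.2 h0), inv_mul_cancel₀ hpos.ne'])
    refine ⟨(⟨1 - N p, by linarith, by linarith⟩, u), Subtype.ext ?_⟩
    simp only [Th, hu]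
    rw [smul_smul]
    have : (1 - (1 - N p)) * (N p)⁻¹ = 1 := by
      rw [sub_sub_cancel, mul_inv_cancel₀ hpos.ne']
    rw [this, one_smul]

/-- bundled version -/
noncomputable def ThC (m : ℕ) : C(I × (Fin m → I), Ball m) := ⟨Th, Th_cont⟩

theorem Th_quot (hm : 0 < m) : Topology.IsQuotientMap (ThC m) :=
  (Th_cont (m := m)).isClosedMap.isQuotientMap Th_cont (Th_surj hm)

/-- If `π_m` vanishes at the base point, a map defined on the sphere extends to the ball. -/
theorem extend {X : Type*} [TopologicalSpace X] (hm : 0 < m)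
    (f : {p : (Fin m → ℝ) × ℝ // N p = 1} → X) (hf : Continuous f)
    (x0 : X) (hx0 : ∀ hN, f ⟨((0 : Fin m → ℝ), (-1 : ℝ)), hN⟩ = x0)
    (hpi : Subsingleton (HomotopyGroup.Pi m X x0)) :
    ∃ F : C(Ball m, X), ∀ p (h1 : N p = 1), F ⟨p, h1.le⟩ = f ⟨p, h1⟩ := by
  classical
  -- the loop
  let γ : GenLoop (Fin m) X x0 := ⟨⟨fun u => f ⟨q u, N_q u⟩,
    hf.comp (q_cont.subtype_mk _)⟩, by
      intro u hu
      have h1 := q_boundary hu
      have hN : N ((0 : Fin m → ℝ), (-1 : ℝ)) = 1 := by rw [← h1]; exact N_q u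
      have h2 : (⟨q u, N_q u⟩ : {p : (Fin m → ℝ) × ℝ // N p = 1}) = ⟨_, hN⟩ := Subtype.ext h1
      show f ⟨q u, N_q u⟩ = x0
      rw [h2, hx0]⟩
  have hhom : GenLoop.Homotopic γ GenLoop.const := by
    have := @Subsingleton.elim _ hpi (Quotient.mk (GenLoop.Homotopic.setoid (Fin m) x0) γ)
      (Quotient.mk (GenLoop.Homotopic.setoid (Fin m) x0) GenLoop.const)
    exact Quotient.exact this
  obtain ⟨H⟩ := hhom
  have hfac : Function.FactorsThrough (H.toContinuousMap) (ThC m) := by
    rintro ⟨t, u⟩ ⟨t', u'⟩ h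
    change Th (t, u) = Th (t', u') at h
    have h' := congrArg Subtype.val h
    simp only [Th] at h'
    have ht : t = t' := by
      have := congrArg N h'
      rw [N_smul _ (by have := t.2.2; linarith), N_smul _ (by have := t'.2.2; linarith), N_q,
        N_q] at this
      exact Subtype.ext (by linarith)
    subst ht
    by_cases h1 : (t : ℝ) = 1
    · have h1' : t = 1 := Subtype.ext h1
      subst h1'
      show H (1, u) = H (1, u')
      rw [H.apply_one, H.apply_one]
      rfl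
    · have hc : (1 - (t : ℝ)) ≠ 0 := fun h => h1 (by linarith)
      have hq : q u = q u' := by
        have := congrArg (fun z => (1 - (t : ℝ))⁻¹ • z) h'
        simpa only [smul_smul, inv_mul_cancel₀ hc, one_smul] using this
      rcases q_inj hq with h2 | ⟨h2, h3⟩
      · rw [h2]
      · show H (t, u) = H (t, u')
        rw [H.eq_fst t h2, H.eq_fst t h3]
        show γ u = γ u'
        rw [GenLoop.boundary γ u h2, GenLoop.boundary γ u' h3]
  refine ⟨(Th_quot hm).lift H.toContinuousMap hfac, ?_⟩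
  intro p h1
  obtain ⟨u, hu⟩ := q_surj hm p h1
  have h2 : (⟨p, h1.le⟩ : Ball m) = Th (0, u) := by
    refine Subtype.ext ?_
    simp [Th, hu]
  rw [h2]
  have h3 := (Th_quot hm).lift_comp H.toContinuousMap hfac
  have h4 := DFunLike.congr_fun h3 (0, u)
  refine Eq.trans h4 ?_
  show H (0, u) = _
  rw [H.apply_zero]
  show f ⟨q u, N_q u⟩ = f ⟨p, h1⟩
  congr 1
  exact Subtype.ext hu

end Pool.Agent.H67.VR
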