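import Mathlib
import Pool.Agent.H67.VR.Topo

/-!
An abstract criterion for the non-vanishing of a homotopy group of a clique complex.
-/

set_option autoImplicit false

open scoped unitInterval Topology
open Set

namespace Pool.Agent.H67.VR

variable {m : ℕ} {V : Type} [Fintype V] [DecidableEq V]

/-- the mass of a set of vertices -/
noncomputable def ev (T : Finset V) : (V → ℝ) →ₗ[ℝ] ℝ := ∑ v ∈ T, LinearMap.proj v

omit [Fintype V] [DecidableEq V] in
theorem ev_apply (T : Finset V) (μ : V → ℝ) : ev T μ = ∑ v ∈ T, μ v := by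
  simp [ev]

omit [Fintype V] in
theorem ev_single (T : Finset V) (u : V) :
    ev T (Pi.single u (1 : ℝ)) = if u ∈ T then 1 else 0 := by
  rw [ev_apply]
  simp [Pi.single_apply]

omit [Fintype V] [DecidableEq V] in
theorem ev_cont (T : Finset V) : Continuous (fun μ : V → ℝ => ev T μ) := by
  simp only [ev_apply]
  fun_prop

/-- the total mass of the coordinates -/
noncomputable def Lsum (p : (Fin m → ℝ) × ℝ) : ℝ := ∑ i, |p.1 i| + |p.2|

theorem Lsum_cont : Continuous (Lsum (m := m)) := by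
  unfold Lsum; fun_prop

theorem N_le_Lsum (p : (Fin m → ℝ) × ℝ) : N p ≤ Lsum p := by
  unfold N Lsum
  have : ‖p.1‖ ≤ ∑ i, |p.1 i| := by
    rw [pi_norm_le_iff_of_nonneg (Finset.sum_nonneg fun i _ => abs_nonneg _)]
    intro i
    rw [Real.norm_eq_abs]
    exact Finset.single_le_sum (f := fun i => |p.1 i|) (fun i _ => abs_nonneg _) (Finset.mem_univ i)
  linarith

/-- the map to the cross polytope -/
noncomputable def fv (x x' : Fin m → V) (y y' : V) (p : (Fin m → ℝ) × ℝ) : V → ℝ :=
  (Lsum p)⁻¹ • (∑ i, (max (p.1 i) 0 • (Pi.single (x i) (1 : ℝ) : V → ℝ)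
    + max (-(p.1 i)) 0 • (Pi.single (x' i) (1 : ℝ) : V → ℝ))
    + (max p.2 0 • (Pi.single y (1 : ℝ) : V → ℝ) + max (-p.2) 0 • (Pi.single y' (1 : ℝ) : V → ℝ)))

theorem fv_ev (x x' : Fin m → V) (y y' : V) (p : (Fin m → ℝ) × ℝ) (T : Finset V) :
    ev T (fv x x' y y' p) = (Lsum p)⁻¹ * (∑ i, (max (p.1 i) 0 * (if x i ∈ T then 1 else 0)
    + max (-(p.1 i)) 0 * (if x' i ∈ T then 1 else 0))
    + (max p.2 0 * (if y ∈ T then 1 else 0) + max (-p.2) 0 * (if y' ∈ T then 1 else 0))) := by
  unfold fv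
  simp only [map_smul, map_add, map_sum, ev_single, smul_eq_mul]

omit [Fintype V] [DecidableEq V] in
/-- sign choice -/
theorem abs_smul_choice (t : ℝ) (a b : V → ℝ) :
    max t 0 • a + max (-t) 0 • b = |t| • (if 0 ≤ t then a else b) := by
  by_cases h : 0 ≤ t
  · rw [if_pos h, max_eq_left h, max_eq_right (by linarith), abs_of_nonneg h, zero_smul, add_zero]
  · rw [if_neg h, max_eq_right (not_le.1 h).le, max_eq_left (by linarith [not_le.1 h]),
      abs_of_neg (not_le.1 h), zero_smul, zero_add]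

/-- the clique complex, realised in `ℝ^V` -/
def Cx (R : V → V → Prop) : Set (V → ℝ) :=
  ⋃ (S : Finset V) (_ : ∀ v ∈ S, ∀ w ∈ S, R v w),
    convexHull ℝ ((fun v : V => (Pi.single v (1 : ℝ) : V → ℝ)) '' (S : Set V))

omit [Fintype V] in
theorem mem_fv {R : V → V → Prop} (x x' : Fin m → V) (y y' : V)
    (hcl : ∀ (s : Fin m → Bool) (t : Bool), ∃ S : Finset V, (∀ v ∈ S, ∀ w ∈ S, R v w) ∧
      (∀ i, (if s i then x i else x' i) ∈ S) ∧ (if t then y else y') ∈ S)
    (p : (Fin m → ℝ) × ℝ) (hL : 0 < Lsum p) : fv x x' y y' p ∈ Cx R := by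
  obtain ⟨S, hS, h1, h2⟩ := hcl (fun i => decide (0 ≤ p.1 i)) (decide (0 ≤ p.2))
  unfold Cx
  simp only [mem_iUnion]
  refine ⟨S, hS, ?_⟩
  have hrep : fv x x' y y' p = ∑ o : Option (Fin m),
      (match o with
        | none => |p.2| / Lsum p
        | some i => |p.1 i| / Lsum p) •
      (match o with
        | none => (if 0 ≤ p.2 then (Pi.single y (1 : ℝ) : V → ℝ) else Pi.single y' 1)
        | some i => (if 0 ≤ p.1 i then (Pi.single (x i) (1 : ℝ) : V → ℝ)
            else Pi.single (x' i) 1)) := by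
    rw [Fintype.sum_option]
    unfold fv
    simp only [abs_smul_choice]
    rw [smul_add, Finset.smul_sum, add_comm]
    congr 1
    · rw [smul_smul, div_eq_inv_mul]
    · refine Finset.sum_congr rfl fun i _ => ?_
      rw [smul_smul, div_eq_inv_mul]
  rw [hrep]
  refine (convex_convexHull ℝ _).sum_mem ?_ ?_ ?_
  · rintro (_ | i) _
    · exact div_nonneg (abs_nonneg _) hL.le
    · exact div_nonneg (abs_nonneg _) hL.le
  · rw [Fintype.sum_option]
    simp only
    rw [← Finset.sum_div, ← add_div, div_eq_one_iff_eq hL.ne']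
    unfold Lsum
    ring
  · rintro (_ | i) _
    · refine subset_convexHull ℝ _ ?_
      simp only
      by_cases h : 0 ≤ p.2
      · rw [if_pos h]
        refine ⟨y, ?_, rfl⟩
        simpa [h] using h2
      · rw [if_neg h]
        refine ⟨y', ?_, rfl⟩
        simpa [h] using h2
    · refine subset_convexHull ℝ _ ?_
      simp only
      have h1i := h1 i
      by_cases h : 0 ≤ p.1 i
      · rw [if_pos h]
        refine ⟨x i, ?_, rfl⟩
        simpa [h] using h1i
      · rw [if_neg h]
        refine ⟨x' i, ?_, rfl⟩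
        simpa [h] using h1i

/-- points of the complex are probability measures carried by a clique -/
theorem mem_Cx {R : V → V → Prop} {μ : V → ℝ} (hμ : μ ∈ Cx R) :
    ∃ S : Finset V, (∀ v ∈ S, ∀ w ∈ S, R v w) ∧ (∑ v, μ v = 1) ∧ (∀ v, 0 ≤ μ v) ∧
      ∀ v, v ∉ S → μ v = 0 := by
  unfold Cx at hμ
  simp only [mem_iUnion] at hμ
  obtain ⟨S, hS, h⟩ := hμ
  refine ⟨S, hS, ?_⟩
  let K : Set (V → ℝ) := {ν | (∑ v, ν v = 1) ∧ (∀ v, 0 ≤ ν v) ∧ ∀ v, v ∉ S → ν v = 0}
  have hK : Convex ℝ K := by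
    intro a ha b hb s t hs ht hst
    refine ⟨?_, ?_, ?_⟩
    · simp only [Pi.add_apply, Pi.smul_apply, smul_eq_mul]
      rw [Finset.sum_add_distrib, ← Finset.mul_sum, ← Finset.mul_sum, ha.1, hb.1]
      linarith
    · intro v
      simp only [Pi.add_apply, Pi.smul_apply, smul_eq_mul]
      have := ha.2.1 v
      have := hb.2.1 v
      positivity
    · intro v hv
      simp only [Pi.add_apply, Pi.smul_apply, smul_eq_mul]
      rw [ha.2.2 v hv, hb.2.2 v hv]
      ring
  have hsub : convexHull ℝ ((fun v : V => (Pi.single v (1 : ℝ) : V → ℝ)) '' (S : Set V)) ⊆ K := by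
    refine convexHull_min ?_ hK
    rintro _ ⟨u, hu, rfl⟩
    refine ⟨?_, ?_, ?_⟩
    · simp
    · intro v
      by_cases h : v = u
      · subst h; simp
      · simp [h]
    · intro v hv
      have : v ≠ u := fun h => hv (h ▸ hu)
      simp [this]
  exact hsub h

/-- retraction of the cube to the ball -/
noncomputable def pt (s : Fin (m + 1) → ℝ) : (Fin m → ℝ) × ℝ :=
  (fun j => 2 * s j.castSucc - 1, 2 * s (Fin.last m) - 1)

theorem pt_cont : Continuous (pt (m := m)) := by
  unfold pt; fun_prop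

noncomputable def rt (s : Fin (m + 1) → ℝ) : Ball m :=
  ⟨(max 1 (N (pt s)))⁻¹ • pt s, by
    have h1 : 0 < max 1 (N (pt s)) := lt_of_lt_of_le one_pos (le_max_left _ _)
    rw [N_smul _ (inv_nonneg.2 h1.le), inv_mul_le_iff₀ h1, mul_one]
    exact le_max_right _ _⟩

theorem rt_cont : Continuous (rt (m := m)) := by
  unfold rt
  refine Continuous.subtype_mk ?_ _
  have h1 : Continuous fun s : Fin (m + 1) → ℝ => max 1 (N (pt s)) :=
    continuous_const.max (N_cont.comp pt_cont)
  have h2 : Continuous fun s : Fin (m + 1) → ℝ => (max 1 (N (pt s)))⁻¹ :=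
    h1.inv₀ fun s => (lt_of_lt_of_le one_pos (le_max_left _ _)).ne'
  exact h2.smul pt_cont

theorem rt_face (s : Fin (m + 1) → ℝ) (j : Fin (m + 1)) (hj : s j = 0 ∨ s j = 1) :
    1 ≤ N (pt s) := by
  have key : |2 * s j - 1| = 1 := by
    rcases hj with h | h <;> rw [h] <;> norm_num
  unfold N pt
  simp only
  rcases Fin.eq_castSucc_or_eq_last j with ⟨i, rfl⟩ | rfl
  · have := norm_le_pi_norm (fun j : Fin m => 2 * s j.castSucc - 1) i
    rw [Real.norm_eq_abs, key] at this
    have := abs_nonneg (2 * s (Fin.last m) - 1)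
    linarith
  · have := norm_nonneg (fun j : Fin m => 2 * s j.castSucc - 1)
    linarith

/-- the criterion -/
theorem criterion (hm : 0 < m) {R : V → V → Prop} (x x' : Fin m → V) (y y' : V)
    (Tp Tm : Finset V)
    (hcl : ∀ (s : Fin m → Bool) (t : Bool), ∃ S : Finset V, (∀ v ∈ S, ∀ w ∈ S, R v w) ∧
      (∀ i, (if s i then x i else x' i) ∈ S) ∧ (if t then y else y') ∈ S)
    (hx : Function.Injective x) (hxx' : ∀ i j, x i ≠ x' j)
    (hxp : ∀ i, x i ∉ Tp) (hxm : ∀ i, x i ∉ Tm) (hxp' : ∀ i, x' i ∉ Tp) (hxm' : ∀ i, x' i ∉ Tm)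
    (hyp : y ∈ Tp) (hym : y ∉ Tm) (hyp' : y' ∉ Tp) (hym' : y' ∈ Tm)
    (hdisj : Disjoint Tp Tm)
    (hmax : ∀ S : Finset V, (∀ v ∈ S, ∀ w ∈ S, R v w) → (∀ i, x i ∈ S) →
      (∀ v ∈ S, v ∈ range x ∨ v ∈ Tp) ∨ (∀ v ∈ S, v ∈ range x ∨ v ∈ Tm))
    (x0 : Cx R) (hx0 : x0.1 = Pi.single y' 1) :
    ¬ Subsingleton (HomotopyGroup.Pi m (Cx R) x0) := by
  intro hpi
  classical
  have hLpos : ∀ p : (Fin m → ℝ) × ℝ, N p = 1 → 0 < Lsum p := fun p hp =>
    lt_of_lt_of_le (by rw [hp]; exact one_pos) (N_le_Lsum p)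
  let f : {p : (Fin m → ℝ) × ℝ // N p = 1} → Cx R := fun p =>
    ⟨fv x x' y y' p.1, mem_fv x x' y y' hcl p.1 (hLpos _ p.2)⟩
  have hf : Continuous f := by
    refine Continuous.subtype_mk ?_ _
    unfold fv
    refine Continuous.smul (Continuous.inv₀ (Lsum_cont.comp continuous_subtype_val) ?_) ?_
    · intro p; exact (hLpos _ p.2).ne'
    · fun_prop
  obtain ⟨F, hF⟩ := extend hm f hf x0 (by
    intro hN
    refine Subtype.ext ?_
    rw [hx0]
    show fv x x' y y' ((0 : Fin m → ℝ), (-1 : ℝ)) = _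
    unfold fv Lsum
    simp) hpi
  set ε : ℝ := 1 / (2 * (m + 1)) with hε
  have hmp : (0 : ℝ) < (m : ℝ) + 1 := by positivity
  have hεpos : 0 < ε := by rw [hε]; positivity
  -- the function for Poincare-Miranda
  let h : (Fin (m + 1) → ℝ) → (Fin (m + 1) → ℝ) := fun s =>
    Fin.snoc (α := fun _ => ℝ) (fun j : Fin m => ev {x j} (F (rt s)).1 - ε)
      (ev Tp (F (rt s)).1 - ev Tm (F (rt s)).1)
  have hcast : ∀ s (j : Fin m), h s j.castSucc = ev {x j} (F (rt s)).1 - ε := by
    intro s j; simp only [h, Fin.snoc_castSucc]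
  have hlast : ∀ s, h s (Fin.last m) = ev Tp (F (rt s)).1 - ev Tm (F (rt s)).1 := by
    intro s; simp only [h, Fin.snoc_last]
  have hFc : Continuous fun s : Fin (m + 1) → ℝ => (F (rt s)).1 :=
    continuous_subtype_val.comp (F.continuous.comp rt_cont)
  have hhc : Continuous h := by
    rw [continuous_pi_iff]
    intro j
    rcases Fin.eq_castSucc_or_eq_last j with ⟨i, rfl⟩ | rfl
    · simp only [hcast]
      exact ((ev_cont _).comp hFc).sub continuous_const
    · simp only [hlast]
      exact ((ev_cont _).comp hFc).sub ((ev_cont _).comp hFc)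
  -- values on the faces
  have hface : ∀ s : Fin (m + 1) → ℝ, 1 ≤ N (pt s) → ∀ T : Finset V,
      ev T (F (rt s)).1 = (Lsum (pt s))⁻¹ *
        (∑ i, (max ((pt s).1 i) 0 * (if x i ∈ T then 1 else 0)
          + max (-((pt s).1 i)) 0 * (if x' i ∈ T then 1 else 0))
        + (max (pt s).2 0 * (if y ∈ T then 1 else 0)
          + max (-(pt s).2) 0 * (if y' ∈ T then 1 else 0))) := by
    intro s hs T
    set c := N (pt s) with hc
    have hcpos : 0 < c := by linarith
    have h1 : N (c⁻¹ • pt s) = 1 := by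
      rw [N_smul _ (inv_nonneg.2 hcpos.le), ← hc, inv_mul_cancel₀ hcpos.ne']
    have h2 : rt s = ⟨c⁻¹ • pt s, h1.le⟩ := by
      refine Subtype.ext ?_
      simp only [rt]
      rw [max_eq_right hs]
    rw [h2, hF _ h1]
    show ev T (fv x x' y y' (c⁻¹ • pt s)) = _
    rw [fv_ev]
    have hL : Lsum (c⁻¹ • pt s) = c⁻¹ * Lsum (pt s) := by
      unfold Lsum
      simp only [Prod.smul_fst, Prod.smul_snd, Pi.smul_apply, smul_eq_mul, abs_mul,
        abs_of_pos (inv_pos.2 hcpos)]
      rw [← Finset.mul_sum]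
      ring
    have hmaxm : ∀ t : ℝ, max (c⁻¹ * t) 0 = c⁻¹ * max t 0 := by
      intro t
      rw [mul_max_of_nonneg _ _ (inv_nonneg.2 hcpos.le), mul_zero]
    have hLp : 0 < Lsum (pt s) := lt_of_lt_of_le (by linarith) (N_le_Lsum (pt s))
    rw [hL]
    simp only [Prod.smul_fst, Prod.smul_snd, Pi.smul_apply, smul_eq_mul, ← mul_neg, hmaxm]
    have e1 : ∀ i, (c⁻¹ * max ((pt s).1 i) 0 * (if x i ∈ T then (1 : ℝ) else 0)
          + c⁻¹ * max (-((pt s).1 i)) 0 * (if x' i ∈ T then 1 else 0))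
        = c⁻¹ * (max ((pt s).1 i) 0 * (if x i ∈ T then (1 : ℝ) else 0)
          + max (-((pt s).1 i)) 0 * (if x' i ∈ T then 1 else 0)) := by
      intro i; ring
    simp only [e1]
    rw [← Finset.mul_sum]
    field_simp
  have hcube : ∀ s ∈ Set.Icc (0 : Fin (m + 1) → ℝ) 1, 1 ≤ N (pt s) → Lsum (pt s) ≤ m + 1 := by
    intro s hs _
    have habs : ∀ j, |2 * s j - 1| ≤ 1 := by
      intro j
      have h0 := hs.1 j
      have h1 := hs.2 j
      simp only [Pi.zero_apply, Pi.one_apply] at h0 h1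
      rw [abs_le]; constructor <;> linarith
    unfold Lsum pt
    simp only
    have := Finset.sum_le_sum (s := Finset.univ) (f := fun i : Fin m => |2 * s i.castSucc - 1|)
      (g := fun _ => (1 : ℝ)) (fun i _ => habs _)
    simp only [Finset.sum_const, Finset.card_univ, Fintype.card_fin, nsmul_eq_mul, mul_one] at this
    have := habs (Fin.last m)
    linarith
  -- value of the j-th coordinate on a face
  have hval : ∀ s : Fin (m + 1) → ℝ, 1 ≤ N (pt s) → ∀ j : Fin m,
      ev {x j} (F (rt s)).1 = (Lsum (pt s))⁻¹ * max (2 * s j.castSucc - 1) 0 := by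
    intro s hs j
    rw [hface s hs]
    have hy1 : y ∉ ({x j} : Finset V) := by
      rw [Finset.mem_singleton]; rintro rfl; exact hxp j hyp
    have hy2 : y' ∉ ({x j} : Finset V) := by
      rw [Finset.mem_singleton]; rintro rfl; exact hxm j hym'
    have hx2 : ∀ i, x' i ∉ ({x j} : Finset V) := by
      intro i; rw [Finset.mem_singleton]; exact fun h => hxx' j i h.symm
    simp only [if_neg hy1, if_neg hy2, if_neg (hx2 _), mul_zero, add_zero]
    simp only [Finset.mem_singleton, hx.eq_iff, mul_ite, mul_one, mul_zero, Finset.sum_ite_eq',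
      Finset.mem_univ, if_true]
    rfl
  have hvalT : ∀ s : Fin (m + 1) → ℝ, 1 ≤ N (pt s) →
      ev Tp (F (rt s)).1 - ev Tm (F (rt s)).1 = (Lsum (pt s))⁻¹ * (2 * s (Fin.last m) - 1) := by
    intro s hs
    rw [hface s hs, hface s hs]
    simp only [if_neg (hxp _), if_neg (hxm _), if_neg (hxp' _), if_neg (hxm' _), if_pos hyp,
      if_neg hym, if_neg hyp', if_pos hym', mul_zero, add_zero, zero_add, mul_one,
      Finset.sum_const_zero]
    rw [← mul_sub]
    congr 1
    show max (2 * s (Fin.last m) - 1) 0 - max (-(2 * s (Fin.last m) - 1)) 0 = _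
    rcases le_total 0 (2 * s (Fin.last m) - 1) with h | h
    · rw [max_eq_left h, max_eq_right (by linarith)]; ring
    · rw [max_eq_right h, max_eq_left (by linarith)]; ring
  obtain ⟨s, hs, hzero⟩ := Pool.Agent.H58.Kuhn.poincare_miranda h hhc.continuousOn
    (by
      intro s hs j hj
      have hN := rt_face s j (Or.inl hj)
      have hLp : 0 < Lsum (pt s) := lt_of_lt_of_le (by linarith) (N_le_Lsum (pt s))
      rcases Fin.eq_castSucc_or_eq_last j with ⟨i, rfl⟩ | rfl
      · rw [hcast, hval s hN, hj]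
        have : max (2 * (0 : ℝ) - 1) 0 = 0 := by norm_num
        rw [this]; linarith
      · rw [hlast, hvalT s hN, hj]
        have := inv_pos.2 hLp
        nlinarith)
    (by
      intro s hs j hj
      have hN := rt_face s j (Or.inr hj)
      have hLp : 0 < Lsum (pt s) := lt_of_lt_of_le (by linarith) (N_le_Lsum (pt s))
      rcases Fin.eq_castSucc_or_eq_last j with ⟨i, rfl⟩ | rfl
      · rw [hcast, hval s hN, hj]
        have h1 : max (2 * (1 : ℝ) - 1) 0 = 1 := by norm_num
        rw [h1, mul_one]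
        have h2 := hcube s hs hN
        have h3 : ((m : ℝ) + 1)⁻¹ ≤ (Lsum (pt s))⁻¹ := inv_anti₀ hLp h2
        have h4 : ε ≤ ((m : ℝ) + 1)⁻¹ := by
          rw [hε, ← one_div]
          exact one_div_le_one_div_of_le hmp (by linarith)
        linarith
      · rw [hlast, hvalT s hN, hj]
        have := inv_pos.2 hLp
        nlinarith)
  -- contradiction
  set μ := (F (rt s)).1 with hμ
  obtain ⟨S, hS, hsum, hnn, hsupp⟩ := mem_Cx (F (rt s)).2
  have hxε : ∀ j, μ (x j) = ε := by
    intro j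
    have := congrFun hzero j.castSucc
    rw [hcast, Pi.zero_apply, ev_apply, Finset.sum_singleton] at this
    linarith
  have hTT : ev Tp μ = ev Tm μ := by
    have := congrFun hzero (Fin.last m)
    rw [hlast, Pi.zero_apply] at this
    linarith
  have hmem : ∀ j, x j ∈ S := by
    intro j
    by_contra hn
    have h1 := hsupp _ hn
    have h2 := hxε j
    rw [hμ] at h2
    linarith
  have hsumx : ∑ v ∈ Finset.univ.image x, μ v = m * ε := by
    rw [Finset.sum_image (fun a _ b _ h => hx h)]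
    simp only [hxε, Finset.sum_const, Finset.card_univ, Fintype.card_fin, nsmul_eq_mul]
  have hmε : (m : ℝ) * ε < 1 := by
    rw [hε, mul_one_div, div_lt_one (by positivity)]
    linarith
  have aux : ∀ T T' : Finset V, (∀ j, x j ∉ T) → (∀ j, x j ∉ T') → Disjoint T T' →
      (∀ v ∈ S, v ∈ range x ∨ v ∈ T) → ev T μ = ev T' μ → False := by
    intro T T' hT hT' hd hc he
    have h0 : ev T' μ = 0 := by
      rw [ev_apply]
      refine Finset.sum_eq_zero fun v hv => ?_
      refine hsupp v fun hvS => ?_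
      rcases hc v hvS with ⟨j, rfl⟩ | h
      · exact hT' j hv
      · exact (Finset.disjoint_left.1 hd h) hv
    have hdis : Disjoint (Finset.univ.image x) T := by
      rw [Finset.disjoint_left]
      intro v hv
      obtain ⟨j, _, rfl⟩ := Finset.mem_image.1 hv
      exact hT j
    have h1 : ∑ v, μ v = ∑ v ∈ Finset.univ.image x ∪ T, μ v := by
      symm
      refine Finset.sum_subset (Finset.subset_univ _) fun v _ hv => ?_
      refine hsupp v fun hvS => hv ?_
      rcases hc v hvS with ⟨j, rfl⟩ | h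
      · exact Finset.mem_union_left _ (Finset.mem_image_of_mem _ (Finset.mem_univ _))
      · exact Finset.mem_union_right _ h
    rw [Finset.sum_union hdis, hsumx, ← ev_apply T, he, h0] at h1
    rw [hμ] at h1
    linarith
  rcases hmax S hS hmem with hc | hc
  · exact aux Tp Tm hxp hxm hdisj hc hTT
  · exact aux Tm Tp hxm hxp hdisj.symm hc hTT.symm

end Pool.Agent.H67.VR
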