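import Mathlib
import Pool.Agent.H67.VR.Comb
import Pool.Agent.H67.VR.Had
import Pool.Agent.H67.VR.Main

/-!
The clique complex of scale 14 of the cube of dimension 27 has a non trivial `π_26`.
-/

set_option autoImplicit false

namespace Pool.Agent.H67.VR

/-- vertices of the 27-cube -/
def ext (f : ℕ → Bool) (t : Bool) : Fin 27 → Bool := fun c => if (c : ℕ) < 26 then f c else t

/-- the first 26 coordinates -/
def fst26 (v : Fin 27 → Bool) : ℕ → Bool := fun c => if h : c < 26 then v ⟨c, by omega⟩ else false

theorem ext_fst (v : Fin 27 → Bool) : ext (fst26 v) (v ⟨26, by norm_num⟩) = v := by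
  funext c
  unfold ext fst26
  by_cases h : (c : ℕ) < 26
  · rw [if_pos h, dif_pos h]
  · rw [if_neg h]
    congr 1
    exact Fin.ext (by have := c.2; simp only; omega)

theorem ham_ext (f g : ℕ → Bool) (s t : Bool) :
    hammingDist (ext f s) (ext g t) = dst f g + cond (s ^^ t) 1 0 := by
  have e1 : (∑ i : Fin 26, if ext f s i.castSucc ≠ ext g t i.castSucc then 1 else 0)
      = dst f g := by
    unfold dst
    rw [sumTo_eq, Finset.sum_range]
    refine Finset.sum_congr rfl fun c _ => ?_
    have h : ((Fin.castSucc c : Fin 27) : ℕ) < 26 := by simp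
    have h1 : ext f s c.castSucc = f c := by
      unfold ext; rw [if_pos h]; rfl
    have h2 : ext g t c.castSucc = g c := by
      unfold ext; rw [if_pos h]; rfl
    rw [h1, h2]
    cases f c <;> cases g c <;> simp
  have e2 : (if ext f s (Fin.last 26) ≠ ext g t (Fin.last 26) then 1 else 0)
      = cond (s ^^ t) 1 0 := by
    have h : ¬ ((Fin.last 26 : Fin 27) : ℕ) < 26 := by simp
    have h1 : ext f s (Fin.last 26) = s := by
      unfold ext; rw [if_neg h]
    have h2 : ext g t (Fin.last 26) = t := by
      unfold ext; rw [if_neg h]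
    rw [h1, h2]
    cases s <;> cases t <;> simp
  unfold hammingDist
  rw [Finset.card_filter, Fin.sum_univ_castSucc, e1, e2]

theorem dst_comm (f g : ℕ → Bool) : dst f g = dst g f := by
  unfold dst
  rw [sumTo_eq, sumTo_eq]
  refine Finset.sum_congr rfl fun c _ => ?_
  cases f c <;> cases g c <;> rfl

theorem dst_not (f g : ℕ → Bool) : dst f (fun c => !g c) = 26 - dst f g := by
  have key : dst f (fun c => !g c) + dst f g = 26 := by
    unfold dst
    rw [sumTo_eq, sumTo_eq, ← Finset.sum_add_distrib]
    have : ∀ c ∈ Finset.range 26, cond (f c ^^ !g c) 1 0 + cond (f c ^^ g c) 1 0 = 1 := by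
      intro c _
      cases f c <;> cases g c <;> rfl
    rw [Finset.sum_congr rfl this]
    rfl
  omega

theorem dst_not_not (f g : ℕ → Bool) : dst (fun c => !f c) (fun c => !g c) = dst f g := by
  unfold dst
  rw [sumTo_eq, sumTo_eq]
  refine Finset.sum_congr rfl fun c _ => ?_
  simp only [Bool.not_bne_not]

theorem rows : ∀ i < 26, ∀ j < 26, dst (rb i) (rb j) ≤ 14 ∧ (i ≠ j → 12 ≤ dst (rb i) (rb j)) := by
  decide +kernel

theorem rows_tight : ∀ j < 26, ∃ i < 26, dst (rb j) (rb i) = 14 := by
  decide +kernel

theorem rows_true : ∀ i < 26, dst (rb i) (fun _ => true) = 13 := by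
  decide +kernel

theorem rows_false (i : ℕ) (hi : i < 26) : dst (rb i) (fun _ => false) = 13 := by
  have := dst_not (rb i) (fun _ => true)
  rw [rows_true i hi] at this
  exact this

/-- the points of the 25-simplex -/
def xr (i : Fin 26) : Fin 27 → Bool := ext (rb i) true
def xr' (i : Fin 26) : Fin 27 → Bool := ext (fun c => !rb i c) true
def yp : Fin 27 → Bool := ext (fun _ => true) true
def ym : Fin 27 → Bool := ext (fun _ => false) true
def ym' : Fin 27 → Bool := ext (fun _ => false) false

def Tp : Finset (Fin 27 → Bool) := Finset.univ.filter fun v => hammingDist v yp ≤ 2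
def Tm : Finset (Fin 27 → Bool) := Finset.univ.filter fun v => hammingDist v ym' ≤ 2

theorem mem_Tp (v : Fin 27 → Bool) : v ∈ Tp ↔ hammingDist v yp ≤ 2 := by simp [Tp]
theorem mem_Tm (v : Fin 27 → Bool) : v ∈ Tm ↔ hammingDist v ym' ≤ 2 := by simp [Tm]

theorem d_TF : dst (fun _ => true) (fun _ => false) = 26 := by decide
theorem d_TT : dst (fun _ => true) (fun _ => true) = 0 := by decide
theorem d_FF : dst (fun _ => false) (fun _ => false) = 0 := by decide
theorem d_FT : dst (fun _ => false) (fun _ => true) = 26 := by decide

theorem far {v w : Fin 27 → Bool} (hv : v ∈ Tp) (hw : w ∈ Tm) : ¬ hammingDist v w ≤ 14 := by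
  intro h
  rw [mem_Tp] at hv
  rw [mem_Tm] at hw
  have h1 : hammingDist yp ym' = 27 := by
    unfold yp ym'
    rw [ham_ext, d_TF]; rfl
  have h2 := hammingDist_triangle yp v ym'
  have h3 := hammingDist_triangle v w ym'
  rw [hammingDist_comm yp v] at h2
  omega

/-- the relation -/
def Rel (v w : Fin 27 → Bool) : Prop := hammingDist v w ≤ 14

theorem clq (s : Fin 26 → Bool) (t : Bool) : ∃ S : Finset (Fin 27 → Bool),
    (∀ v ∈ S, ∀ w ∈ S, Rel v w) ∧
      (∀ i, (if s i then xr i else xr' i) ∈ S) ∧ (if t then yp else ym) ∈ S := by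
  classical
  refine ⟨insert (if t then yp else ym) (Finset.univ.image fun i => if s i then xr i else xr' i),
    ?_, ?_, ?_⟩
  · have h1 : ∀ i j, Rel (if s i then xr i else xr' i) (if s j then xr j else xr' j) := by
      intro i j
      unfold Rel
      by_cases hij : i = j
      · subst hij
        rw [hammingDist_self]; norm_num
      · have hr := rows i i.2 j j.2
        have hr2 := hr.2 (fun h => hij (Fin.ext h))
        cases hs : s i <;> cases ht : s j
        · simp only [if_false, Bool.false_eq_true]
          unfold xr'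
          rw [ham_ext, dst_not_not]
          simp only [Bool.xor_self, cond_false, add_zero]
          exact hr.1
        · simp only [if_false, Bool.false_eq_true, if_true]
          unfold xr' xr
          rw [ham_ext, dst_comm, dst_not, dst_comm]
          simp only [Bool.xor_self, cond_false, add_zero]
          omega
        · simp only [if_false, Bool.false_eq_true, if_true]
          unfold xr' xr
          rw [ham_ext, dst_not]
          simp only [Bool.xor_self, cond_false, add_zero]
          omega
        · simp only [if_true]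
          unfold xr
          rw [ham_ext]
          simp only [Bool.xor_self, cond_false, add_zero]
          exact hr.1
    have h2 : ∀ i, Rel (if s i then xr i else xr' i) (if t then yp else ym) := by
      intro i
      have ht := rows_true i i.2
      have hf := rows_false i i.2
      have e1 := dst_not_not (rb i) (fun _ => false)
      have e2 := dst_not_not (rb i) (fun _ => true)
      unfold Rel
      cases s i <;> cases t
      · simp only [if_false, Bool.false_eq_true]
        unfold xr' ym
        rw [ham_ext]
        simp only [Bool.not_true] at e2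
        rw [e2, ht]
        norm_num
      · simp only [if_false, Bool.false_eq_true, if_true]
        unfold xr' yp
        rw [ham_ext]
        simp only [Bool.not_false] at e1
        rw [e1, hf]
        norm_num
      · simp only [if_false, Bool.false_eq_true, if_true]
        unfold xr ym
        rw [ham_ext, hf]
        norm_num
      · simp only [if_true]
        unfold xr yp
        rw [ham_ext, ht]
        norm_num
    have hsym : ∀ v w, Rel v w → Rel w v := fun v w h => by
      unfold Rel at *; rw [hammingDist_comm]; exact h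
    intro v hv w hw
    rcases Finset.mem_insert.1 hv with rfl | hv
    · rcases Finset.mem_insert.1 hw with rfl | hw
      · unfold Rel; rw [hammingDist_self]; norm_num
      · obtain ⟨i, _, rfl⟩ := Finset.mem_image.1 hw
        exact hsym _ _ (h2 i)
    · obtain ⟨i, _, rfl⟩ := Finset.mem_image.1 hv
      rcases Finset.mem_insert.1 hw with rfl | hw
      · exact h2 i
      · obtain ⟨j, _, rfl⟩ := Finset.mem_image.1 hw
        exact h1 i j
  · intro i
    exact Finset.mem_insert_of_mem (Finset.mem_image_of_mem _ (Finset.mem_univ i))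
  · exact Finset.mem_insert_self _ _

theorem maxi (S : Finset (Fin 27 → Bool)) (hS : ∀ v ∈ S, ∀ w ∈ S, Rel v w)
    (hx : ∀ i, xr i ∈ S) :
    (∀ v ∈ S, v ∈ Set.range xr ∨ v ∈ Tp) ∨ (∀ v ∈ S, v ∈ Set.range xr ∨ v ∈ Tm) := by
  have h1 : ∀ v ∈ S, v ∈ Set.range xr ∨ v ∈ Tp ∨ v ∈ Tm := by
    intro v hv
    have hd : ∀ j < 26, dst (fst26 v) (rb j) + cond (v ⟨26, by norm_num⟩ ^^ true) 1 0 ≤ 14 := by
      intro j hj
      have := hS v hv (xr ⟨j, hj⟩) (hx ⟨j, hj⟩)
      unfold Rel at this
      rw [← ext_fst v] at this
      unfold xr at this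
      rw [ham_ext] at this
      exact this
    rcases common (fst26 v) (fun j hj => by have := hd j hj; omega) with ⟨j, hj, h⟩ | h | h
    · left
      refine ⟨⟨j, hj⟩, ?_⟩
      obtain ⟨i, hi, hij⟩ := rows_tight j hj
      have h2 := hd i hi
      rw [dst_congr h, hij] at h2
      have h3 : v ⟨26, by norm_num⟩ = true := by
        cases hb : v ⟨26, by norm_num⟩
        · rw [hb] at h2
          simp at h2
        · rfl
      conv_rhs => rw [← ext_fst v, h3]
      unfold xr ext
      funext c
      by_cases hc : (c : ℕ) < 26
      · rw [if_pos hc, if_pos hc]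
        exact (h c hc).symm
      · rw [if_neg hc, if_neg hc]
    · right; left
      rw [mem_Tp, ← ext_fst v]
      unfold yp
      rw [ham_ext]
      have : cond (v ⟨26, by norm_num⟩ ^^ true) 1 0 ≤ 1 := by
        cases v ⟨26, by norm_num⟩ <;> simp
      omega
    · right; right
      rw [mem_Tm, ← ext_fst v]
      unfold ym'
      rw [ham_ext]
      have : cond (v ⟨26, by norm_num⟩ ^^ false) 1 0 ≤ 1 := by
        cases v ⟨26, by norm_num⟩ <;> simp
      omega
  by_cases hT : ∃ v ∈ S, v ∈ Tp
  · obtain ⟨v, hvS, hvT⟩ := hT
    left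
    intro w hw
    rcases h1 w hw with h | h | h
    · exact Or.inl h
    · exact Or.inr h
    · exact absurd (hS v hvS w hw) (far hvT h)
  · right
    intro w hw
    rcases h1 w hw with h | h | h
    · exact Or.inl h
    · exact absurd ⟨w, hw, h⟩ hT
    · exact Or.inr h

theorem pi26 (x0 : Cx Rel) (hx0 : x0.1 = Pi.single ym 1) :
    ¬ Subsingleton (HomotopyGroup.Pi 26 (Cx Rel) x0) := by
  refine criterion (by norm_num) xr xr' yp ym Tp Tm clq ?_ ?_ ?_ ?_ ?_ ?_ ?_ ?_ ?_ ?_ ?_ maxi x0 hx0
  · intro i j h
    by_contra hij
    have h1 := (rows i i.2 j j.2).2 (fun h => hij (Fin.ext h))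
    have h2 : hammingDist (xr i) (xr j) = 0 := by rw [h, hammingDist_self]
    unfold xr at h2
    rw [ham_ext] at h2
    omega
  · intro i j h
    have h1 := (rows i i.2 j j.2).1
    have h2 : hammingDist (xr i) (xr' j) = 0 := by rw [h, hammingDist_self]
    unfold xr xr' at h2
    rw [ham_ext, dst_not] at h2
    omega
  · intro i
    rw [mem_Tp]
    unfold xr yp
    rw [ham_ext, rows_true i i.2]
    simp
  · intro i
    rw [mem_Tm]
    unfold xr ym'
    rw [ham_ext, rows_false i i.2]
    simp
  · intro i
    rw [mem_Tp]
    unfold xr' yp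
    rw [ham_ext]
    have e1 := dst_not_not (rb i) (fun _ => false)
    simp only [Bool.not_false] at e1
    rw [e1, rows_false i i.2]
    simp
  · intro i
    rw [mem_Tm]
    unfold xr' ym'
    rw [ham_ext]
    have e2 := dst_not_not (rb i) (fun _ => true)
    simp only [Bool.not_true] at e2
    rw [e2, rows_true i i.2]
    simp
  · rw [mem_Tp, hammingDist_self]; norm_num
  · rw [mem_Tm]
    unfold yp ym'
    rw [ham_ext, d_TF]
    simp
  · rw [mem_Tp]
    unfold yp ym
    rw [ham_ext, d_FT]
    simp
  · rw [mem_Tm]
    unfold ym ym'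
    rw [ham_ext, d_FF]
    simp
  · rw [Finset.disjoint_left]
    intro v hv hv'
    exact far hv hv' (by rw [hammingDist_self]; norm_num)

end Pool.Agent.H67.VR
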