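import Mathlib

/-!
A verified branch and bound search.  A vertex `v` of the cube `{0,1}^26` is at distance at most `14`
from all the cyclic shifts of a word; for two shifts the number of coordinates in which both
differ from `v` is at most `(28 - d)/2`.  All the counters are kept in one natural number.
-/

set_option autoImplicit false

namespace Pool.Agent.H67.VR

/-- packing of small numbers in base `32` -/
def enc (g : ℕ → ℕ) : ℕ → ℕ
  | 0 => 0
  | K + 1 => enc g K + g K * 32 ^ K

theorem enc_lt (g : ℕ → ℕ) (K : ℕ) (h : ∀ k < K, g k < 32) : enc g K < 32 ^ K := by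
  induction K with
  | zero => simp [enc]
  | succ K ih =>
    have h1 := ih fun k hk => h k (by omega)
    have h2 : g K + 1 ≤ 32 := h K (by omega)
    have h3 : (g K + 1) * 32 ^ K ≤ 32 * 32 ^ K := Nat.mul_le_mul_right _ h2
    rw [enc, pow_succ]
    nlinarith

theorem enc_digit (g : ℕ → ℕ) (K : ℕ) (h : ∀ k < K, g k < 32) (k : ℕ) (hk : k < K) :
    enc g K / 32 ^ k % 32 = g k := by
  induction K with
  | zero => omega
  | succ K ih =>
    rw [enc]
    by_cases hkK : k = K
    · subst hkK
      have h1 := enc_lt g k fun j hj => h j (by omega)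
      rw [Nat.add_mul_div_right _ _ (by positivity), Nat.div_eq_of_lt h1, zero_add]
      exact Nat.mod_eq_of_lt (h k (by omega))
    · have hlt : k < K := by omega
      obtain ⟨j, rfl⟩ : ∃ j, K = k + 1 + j := ⟨K - (k + 1), by omega⟩
      have e : g (k + 1 + j) * 32 ^ (k + 1 + j) = (g (k + 1 + j) * 32 ^ j * 32) * 32 ^ k := by
        rw [pow_add, pow_succ]; ring
      rw [e, Nat.add_mul_div_right _ _ (by positivity), Nat.add_mul_mod_self_right]
      exact ih (fun j hj => h j (by omega)) hlt

theorem enc_add (g h : ℕ → ℕ) (K : ℕ) : enc (fun k => g k + h k) K = enc g K + enc h K := by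
  induction K with
  | zero => rfl
  | succ K ih => simp only [enc, ih]; ring

theorem land_enc (g h : ℕ → ℕ) (K : ℕ) (hg : ∀ k < K, g k < 32) (hh : ∀ k < K, h k < 32)
    (h0 : ∀ k < K, g k &&& h k = 0) : enc g K &&& enc h K = 0 := by
  induction K with
  | zero => simp [enc]
  | succ K ih =>
    have i1 := ih (fun k hk => hg k (by omega)) (fun k hk => hh k (by omega))
      (fun k hk => h0 k (by omega))
    have l1 : enc g K < 2 ^ (5 * K) := by
      rw [pow_mul]; exact enc_lt g K fun k hk => hg k (by omega)
    have l2 : enc h K < 2 ^ (5 * K) := by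
      rw [pow_mul]; exact enc_lt h K fun k hk => hh k (by omega)
    have e1 : enc g (K + 1) = 2 ^ (5 * K) * g K + enc g K := by
      rw [enc, pow_mul]; norm_num; ring
    have e2 : enc h (K + 1) = 2 ^ (5 * K) * h K + enc h K := by
      rw [enc, pow_mul]; norm_num; ring
    refine Nat.eq_of_testBit_eq fun j => ?_
    rw [Nat.testBit_and, e1, e2, Nat.testBit_two_pow_mul_add _ l1, Nat.testBit_two_pow_mul_add _ l2,
      Nat.zero_testBit]
    by_cases hj : j < 5 * K
    · rw [if_pos hj, if_pos hj, ← Nat.testBit_and, i1, Nat.zero_testBit]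
    · rw [if_neg hj, if_neg hj, ← Nat.testBit_and, h0 K (by omega), Nat.zero_testBit]

/-- the flags -/
def hi (K : ℕ) : ℕ := enc (fun _ => 16) K

/-- pruning test -/
def pr (HI P : ℕ) (cont : Bool) : Bool :=
  cond (Nat.beq (Nat.land P HI) 0) cont true

theorem pr_sound (g : ℕ → ℕ) (K : ℕ) (hg : ∀ k < K, g k ≤ 15) (cont : Bool)
    (h : pr (hi K) (enc g K) cont = true) : cont = true := by
  unfold pr at h
  have h0 : enc g K &&& hi K = 0 := by
    refine land_enc g _ K (fun k hk => lt_of_le_of_lt (hg k hk) (by norm_num))
      (fun _ _ => by norm_num) fun k hk => ?_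
    have := hg k hk
    interval_cases g k <;> rfl
  have h1 : Nat.beq (Nat.land (enc g K) (hi K)) 0 = true := by
    change Nat.beq (enc g K &&& hi K) 0 = true
    rw [h0]; rfl
  rw [h1, cond_true] at h
  exact h

/-- the search -/
noncomputable def dfs (HI : ℕ) (leaf : ℕ → Bool) (ds : List (ℕ × ℕ)) : ℕ → ℕ → Bool :=
  List.rec (motive := fun _ => ℕ → ℕ → Bool) (fun _ acc => leaf acc)
    (fun d _ ih P acc =>
      cond (pr HI (Nat.add P d.1) (ih (Nat.add P d.1) (Nat.mul 2 acc)))
        (pr HI (Nat.add P d.2) (ih (Nat.add P d.2) (Nat.add (Nat.mul 2 acc) 1))) false) ds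

/-- code of a prefix -/
def code (v : ℕ → Bool) : ℕ → ℕ
  | 0 => 0
  | c + 1 => 2 * code v c + (if v c then 1 else 0)

/-- number of marks -/
def cnt (ind : ℕ → Bool → ℕ → ℕ) (v : ℕ → Bool) : ℕ → ℕ → ℕ
  | 0, _ => 0
  | c + 1, k => cnt ind v c k + ind c (v c) k

theorem cnt_mono (ind : ℕ → Bool → ℕ → ℕ) (v : ℕ → Bool) (c c' : ℕ) (h : c ≤ c') (k : ℕ) :
    cnt ind v c k ≤ cnt ind v c' k := by
  induction c', h using Nat.le_induction with
  | base => exact le_rfl
  | succ n _ ih => exact le_trans ih (by simp [cnt])

/-- soundness of the search -/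
theorem dfs_sound (leaf : ℕ → Bool) (ind : ℕ → Bool → ℕ → ℕ) (G0 : ℕ → ℕ) (K n : ℕ)
    (v : ℕ → Bool) (hv : ∀ k < K, G0 k + cnt ind v n k ≤ 15) (r : ℕ) :
    ∀ c, c + r = n →
    dfs (hi K) leaf ((List.range' c r).map fun c => (enc (ind c false) K, enc (ind c true) K))
      (enc (fun k => G0 k + cnt ind v c k) K) (code v c) = true → leaf (code v n) = true := by
  induction r with
  | zero =>
    intro c hc h
    have : c = n := by omega
    subst this
    simpa [dfs] using h
  | succ r ih =>
    intro c hc h
    rw [List.range'_succ, List.map_cons] at h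
    set rest := (List.range' (c + 1) r).map fun c => (enc (ind c false) K, enc (ind c true) K)
      with hrest
    have hstep : ∀ b, v c = b → pr (hi K) (enc (fun k => G0 k + cnt ind v c k) K + enc (ind c b) K)
        (dfs (hi K) leaf rest (enc (fun k => G0 k + cnt ind v c k) K + enc (ind c b) K)
          (2 * code v c + (if b then 1 else 0))) = true → leaf (code v n) = true := by
      intro b hb hp
      have e : enc (fun k => G0 k + cnt ind v c k) K + enc (ind c b) K
          = enc (fun k => G0 k + cnt ind v (c + 1) k) K := by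
        rw [← enc_add]
        congr 1
        funext k
        simp only [cnt, hb]
        ring
      rw [e] at hp
      have h1 := pr_sound (fun k => G0 k + cnt ind v (c + 1) k) K (fun k hk => by
        have h2 := cnt_mono ind v (c + 1) n (by omega) k
        have h3 := hv k hk
        show G0 k + cnt ind v (c + 1) k ≤ 15
        omega) _ hp
      refine ih (c + 1) (by omega) ?_
      have e2 : code v (c + 1) = 2 * code v c + (if b then 1 else 0) := by
        rw [code, hb]
      rw [e2]
      exact h1
    have h' : cond (pr (hi K) (enc (fun k => G0 k + cnt ind v c k) K + enc (ind c false) K)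
        (dfs (hi K) leaf rest (enc (fun k => G0 k + cnt ind v c k) K + enc (ind c false) K)
          (2 * code v c)))
        (pr (hi K) (enc (fun k => G0 k + cnt ind v c k) K + enc (ind c true) K)
          (dfs (hi K) leaf rest (enc (fun k => G0 k + cnt ind v c k) K + enc (ind c true) K)
            (2 * code v c + 1))) false = true := h
    rw [Bool.cond_false_right, Bool.and_eq_true] at h'
    cases hb : v c
    · exact hstep false hb (by simpa using h'.1)
    · exact hstep true hb (by simpa using h'.2)

end Pool.Agent.H67.VR
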